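import Pool.Agent.R544.TF.Red

/-!
# Deciding whether there is a 2-factor with one directed cycle is NP-complete

Reduction from 3SAT with the occurrences `o` of literals, three in each clause.  The digraph has a
closed chain with one junction for each clause; from the junction of a clause there are three
parallel directed paths to the next junction, one for each occurrence `o` in the clause, with one
vertex `w(o, k)` for each occurrence `k`.  Gadgets: two adjacent vertices `a`, `b`, both adjacent to
two vertices `w`, `w'`; a 2-factor which contains `a` and `b` outside of the directed cycle exists
iff at most one of `w`, `w'` is on the directed cycle.  The pair `w`, `w'` is `w(o, k)`, `w(k, o)`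
for contradictory occurrences `o`, `k`, and otherwise `w(o, k)` and a new vertex.
-/

namespace Pool.Agent.Results.MP_2afc76_lc.TwoFactorNPComplete

open Pool.Agent.NPC Pool.Agent.R544.TF

/-- Deciding, for a digraph `D`, whether `UG(D)` has a 2-factor `C₁, …, C_k` such that `C₁` is a
directed cycle in `D`, is `NP`-complete. -/
theorem result : InNPP TwoFactorDir ∧ NPHardP TwoFactorDir :=
  ⟨inNPP, HardI.toNPHardP hardPr_TF.toHardI⟩

end Pool.Agent.Results.MP_2afc76_lc.TwoFactorNPComplete
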